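import Mathlib
import Pool.Agent.helper91.HZ.Spec

/-!
# Project HZ, row EXT
-/

namespace Pool.Agent.HZ

open Matrix Polynomial Pool.Agent.GO Pool.Agent.AR Pool.Agent.RG NumberField

universe v

theorem EXT_lift {R A κ : Type*} [CommRing R] [CommRing A] [IsDomain A] [Algebra R A]
    [Algebra.IsIntegral R A] (hinj : Function.Injective (algebraMap R A)) [Field κ] [IsAlgClosed κ]
    (φ : R →+* κ) : ∃ Φ : A →+* κ, ∀ r, Φ (algebraMap R A r) = φ r := by
  have hP : (RingHom.ker φ).IsPrime := RingHom.ker_isPrime φ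
  obtain ⟨Q, hQ, hQP⟩ := Ideal.exists_ideal_over_prime_of_isIntegral_of_isDomain (S := A)
    (RingHom.ker φ) (by
      rw [(RingHom.injective_iff_ker_eq_bot _).mp hinj]
      exact bot_le)
  have hker : ∀ a : R, a ∈ Q.comap (algebraMap R A) → φ a = 0 := by
    intro a ha
    rw [hQP] at ha
    exact ha
  let _ : Algebra (R ⧸ Q.comap (algebraMap R A)) (A ⧸ Q) := Ideal.quotientAlgebra
  have hinj2 : Function.Injective (algebraMap (R ⧸ Q.comap (algebraMap R A)) (A ⧸ Q)) :=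
    Ideal.algebraMap_quotient_injective
  let _ : Algebra (R ⧸ Q.comap (algebraMap R A)) κ :=
    (Ideal.Quotient.lift (Q.comap (algebraMap R A)) φ hker).toAlgebra
  have hinj3 : Function.Injective (algebraMap (R ⧸ Q.comap (algebraMap R A)) κ) := by
    rw [injective_iff_map_eq_zero]
    intro a ha
    obtain ⟨r, rfl⟩ := Ideal.Quotient.mk_surjective a
    rw [Ideal.Quotient.eq_zero_iff_mem, hQP]
    exact ha
  have hprime : (Q.comap (algebraMap R A)).IsPrime := by
    rw [hQP]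
    exact hP
  have hdom : IsDomain (R ⧸ Q.comap (algebraMap R A)) := Ideal.Quotient.isDomain _
  have hdom2 : IsDomain (A ⧸ Q) := Ideal.Quotient.isDomain _
  have htf : Module.IsTorsionFree (R ⧸ Q.comap (algebraMap R A)) (A ⧸ Q) :=
    Module.isTorsionFree_iff_algebraMap_injective.mpr hinj2
  have htf2 : Module.IsTorsionFree (R ⧸ Q.comap (algebraMap R A)) κ :=
    Module.isTorsionFree_iff_algebraMap_injective.mpr hinj3
  have : Algebra.IsIntegral (R ⧸ Q.comap (algebraMap R A)) (A ⧸ Q) := by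
    constructor
    intro x
    obtain ⟨a, rfl⟩ := Ideal.Quotient.mk_surjective x
    obtain ⟨p, hp, hpa⟩ := Algebra.IsIntegral.isIntegral (R := R) a
    refine ⟨p.map (Ideal.Quotient.mk _), hp.map _, ?_⟩
    rw [Polynomial.eval₂_map]
    have h1 : (algebraMap (R ⧸ Q.comap (algebraMap R A)) (A ⧸ Q)).comp (Ideal.Quotient.mk _) =
        (Ideal.Quotient.mk Q).comp (algebraMap R A) := rfl
    rw [h1, ← Polynomial.hom_eval₂, hpa, map_zero]
  let Ψ : (A ⧸ Q) →ₐ[R ⧸ Q.comap (algebraMap R A)] κ := IsAlgClosed.lift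
  refine ⟨Ψ.toRingHom.comp (Ideal.Quotient.mk Q), fun r => ?_⟩
  exact Ψ.commutes (Ideal.Quotient.mk _ r)

theorem EXT_loc {A F κ : Type*} [CommRing A] [Field F] (j : A →+* F)
    (hj : Function.Injective j) [Field κ] (Φ₀ : A →+* κ) :
    ∃ (B : Subring F) (Φ : B →+* κ), ∀ (s a : A) (x : F), Φ₀ s ≠ 0 → j s * x = j a →
      ∃ h : x ∈ B, Φ ⟨x, h⟩ = Φ₀ a / Φ₀ s := by
  let B : Subring F :=
    { carrier := {x | ∃ s a : A, Φ₀ s ≠ 0 ∧ j s * x = j a}
      mul_mem' := by
        rintro x y ⟨s, a, hs, hx⟩ ⟨t, b, ht, hy⟩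
        refine ⟨s * t, a * b, ?_, ?_⟩
        · rw [map_mul]
          exact mul_ne_zero hs ht
        · rw [map_mul, map_mul, ← hx, ← hy]
          ring
      one_mem' := ⟨1, 1, by rw [map_one]; exact one_ne_zero, by rw [mul_one]⟩
      add_mem' := by
        rintro x y ⟨s, a, hs, hx⟩ ⟨t, b, ht, hy⟩
        refine ⟨s * t, t * a + s * b, ?_, ?_⟩
        · rw [map_mul]
          exact mul_ne_zero hs ht
        · rw [map_mul, map_add, map_mul, map_mul, ← hx, ← hy]
          ring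
      zero_mem' := ⟨1, 0, by rw [map_one]; exact one_ne_zero, by rw [mul_zero, map_zero]⟩
      neg_mem' := by
        rintro x ⟨s, a, hs, hx⟩
        refine ⟨s, -a, hs, ?_⟩
        rw [map_neg, ← hx]
        ring }
  have hsne : ∀ s : A, Φ₀ s ≠ 0 → j s ≠ 0 := by
    intro s hs h0
    apply hs
    have : s = 0 := hj (by rw [h0, map_zero])
    rw [this, map_zero]
  have key : ∀ x : B, ∃ y : κ, ∀ s a : A, Φ₀ s ≠ 0 → j s * (x : F) = j a → y = Φ₀ a / Φ₀ s := by
    rintro ⟨x, s, a, hs, hx⟩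
    refine ⟨Φ₀ a / Φ₀ s, ?_⟩
    intro t b ht hy
    rw [div_eq_div_iff hs ht, ← map_mul, ← map_mul]
    congr 1
    apply hj
    rw [map_mul, map_mul, ← hx, ← hy]
    ring
  choose Φ hΦ using key
  refine ⟨B, { toFun := Φ, map_one' := ?_, map_mul' := ?_, map_zero' := ?_, map_add' := ?_ }, ?_⟩
  · rw [hΦ 1 1 1 (by rw [map_one]; exact one_ne_zero) (by rw [map_one]; simp), map_one, div_one]
  · rintro ⟨x, s, a, hs, hx⟩ ⟨y, t, b, ht, hy⟩
    rw [hΦ ⟨x, s, a, hs, hx⟩ s a hs hx, hΦ ⟨y, t, b, ht, hy⟩ t b ht hy,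
      hΦ _ (s * t) (a * b) (by rw [map_mul]; exact mul_ne_zero hs ht) (by
        show j (s * t) * (x * y) = j (a * b)
        rw [map_mul, map_mul, ← hx, ← hy]
        ring), map_mul, map_mul]
    rw [div_mul_div_comm]
  · rw [hΦ 0 1 0 (by rw [map_one]; exact one_ne_zero) (by
      show j 1 * (0 : F) = j 0
      rw [mul_zero, map_zero]), map_zero, zero_div]
  · rintro ⟨x, s, a, hs, hx⟩ ⟨y, t, b, ht, hy⟩
    rw [hΦ ⟨x, s, a, hs, hx⟩ s a hs hx, hΦ ⟨y, t, b, ht, hy⟩ t b ht hy,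
      hΦ _ (s * t) (t * a + s * b) (by rw [map_mul]; exact mul_ne_zero hs ht) (by
        show j (s * t) * (x + y) = j (t * a + s * b)
        rw [map_mul, map_add, map_mul, map_mul, ← hx, ← hy]
        ring), map_mul, map_add, map_mul, map_mul]
    field_simp
  · intro s a x hs hx
    exact ⟨⟨s, a, hs, hx⟩, hΦ ⟨x, s, a, hs, hx⟩ s a hs hx⟩

theorem EXT : EXT_stmt.{v} := by
  intro E _ _ F _ ι κ _ _ φ
  let _ : Algebra (𝓞 E) F := (ι.comp (algebraMap (𝓞 E) E)).toAlgebra
  have hinj : Function.Injective (algebraMap (𝓞 E) (integralClosure (𝓞 E) F)) := by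
    intro a b hab
    have h1 : ι (algebraMap (𝓞 E) E a) = ι (algebraMap (𝓞 E) E b) := congrArg Subtype.val hab
    exact RingOfIntegers.coe_injective (ι.injective h1)
  obtain ⟨Φ₀, hΦ₀⟩ := EXT_lift hinj φ
  obtain ⟨B, Φ, hB⟩ := EXT_loc (algebraMap (integralClosure (𝓞 E) F) F) (Subtype.val_injective) Φ₀
  have first : ∀ (x : E) (y : κ), Red φ x y → ∃ h : ι x ∈ B, Φ ⟨ι x, h⟩ = y := by
    rintro x y ⟨a, m, hm, hmx, hmy⟩
    obtain ⟨h, hh⟩ := hB (m : integralClosure (𝓞 E) F) (algebraMap (𝓞 E) (integralClosure (𝓞 E) F) a)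
      (ι x) (by rw [map_natCast]; exact hm) (by
        have h1 : ι ((m : E) * x) = ι (algebraMap (𝓞 E) E a) := by rw [hmx]
        rw [map_mul, map_natCast] at h1
        rw [map_natCast]
        exact h1)
    refine ⟨h, ?_⟩
    rw [hh, map_natCast, hΦ₀, ← hmy]
    field_simp
  refine ⟨B, Φ, first, ?_⟩
  intro P P' hP hred γ hγ
  choose a m hm hma hmy using hred
  set N := P.natDegree with hN
  set M := ∏ i ∈ Finset.range N, m i with hM
  have hMκ : (M : κ) ≠ 0 := by
    rw [hM, Nat.cast_prod]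
    exact Finset.prod_ne_zero_iff.mpr fun i _ => hm i
  have hlift : scaleRoots P (M : E) ∈ lifts (algebraMap (𝓞 E) E) := by
    rw [lifts_iff_coeff_lifts]
    intro i
    rw [coeff_scaleRoots, ← hN]
    rcases lt_trichotomy i N with hi | hi | hi
    · obtain ⟨M', hM'⟩ : m i ∣ M := Finset.dvd_prod_of_mem m (Finset.mem_range.mpr hi)
      have h1 : N - i = (N - i - 1) + 1 := by omega
      refine ⟨a i * (M' : 𝓞 E) * (M : 𝓞 E) ^ (N - i - 1), ?_⟩
      rw [map_mul, map_mul, map_pow, map_natCast, map_natCast, ← hma i, h1, pow_succ]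
      have h2 : (M : E) = (m i : E) * (M' : E) := by
        rw [hM']
        push_cast
        rfl
      have h3 : P.coeff i * ((M : E) ^ (N - i - 1) * (M : E)) =
          (m i : E) * P.coeff i * (M' : E) * (M : E) ^ (N - i - 1) := by
        rw [h2]
        ring
      rw [h3]
      simp
    · refine ⟨1, ?_⟩
      rw [hi, Nat.sub_self, pow_zero, mul_one, map_one, hN]
      exact hP.symm
    · refine ⟨0, ?_⟩
      rw [map_zero, coeff_eq_zero_of_natDegree_lt (by rw [← hN]; exact hi), zero_mul]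
  obtain ⟨Q, hQ, _, hQm⟩ := lifts_and_natDegree_eq_and_monic hlift ((monic_scaleRoots_iff (M : E)).mpr hP)
  have hint : IsIntegral (𝓞 E) ((M : F) * γ) := by
    refine ⟨Q, hQm, ?_⟩
    have h1 : eval₂ (algebraMap (𝓞 E) F) ((M : F) * γ) Q = eval₂ ι ((M : F) * γ) (Q.map (algebraMap (𝓞 E) E)) := by
      rw [eval₂_map]
      rfl
    rw [h1, hQ]
    have h2 : eval₂ ι (ι (M : E) * γ) (scaleRoots P (M : E)) = 0 := scaleRoots_eval₂_eq_zero ι (by
      rw [← eval_map]
      exact hγ)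
    rw [map_natCast] at h2
    exact h2
  obtain ⟨h, _⟩ := hB (M : integralClosure (𝓞 E) F) ⟨(M : F) * γ, hint⟩ γ (by rw [map_natCast]; exact hMκ) (by
    rw [map_natCast]
    rfl)
  refine ⟨h, ?_⟩
  choose hc hcy using fun i => first (P.coeff i) (P'.coeff i) ⟨a i, m i, hm i, hma i, hmy i⟩
  set K := max P.natDegree P'.natDegree + 1 with hK
  have h1 : ∑ i ∈ Finset.range K, (⟨ι (P.coeff i), hc i⟩ : B) * (⟨γ, h⟩ : B) ^ i = 0 := by
    apply Subtype.ext
    rw [AddSubmonoidClass.coe_finsetSum]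
    have h2 : (P.map ι).eval γ = 0 := hγ
    rw [eval_map, eval₂_eq_sum_range' ι (n := K) (by
      rw [hK]
      exact Nat.lt_succ_of_le (le_max_left _ _))] at h2
    exact h2
  have h3 := congrArg Φ h1
  rw [map_zero, map_sum] at h3
  show P'.eval (Φ ⟨γ, h⟩) = 0
  rw [eval_eq_sum_range' (n := K) (by
    rw [hK]
    exact Nat.lt_succ_of_le (le_max_right _ _)), ← h3]
  apply Finset.sum_congr rfl
  intro i _
  rw [map_mul, map_pow, hcy]

end Pool.Agent.HZ
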