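import Mathlib
import Pool.Agent.helper91.HZ.Spec

/-!
# Project HZ, row SPN
-/

namespace Pool.Agent.HZ

open Matrix Polynomial Pool.Agent.GO Pool.Agent.AR Pool.Agent.RG

theorem SPN_ch {κ : Type} [Field κ] (A : Matrix (Fin 2) (Fin 2) κ) :
    A * A = A.trace • A - A.det • (1 : Matrix (Fin 2) (Fin 2) κ) := by
  ext i j
  fin_cases i <;> fin_cases j <;>
    simp [Matrix.mul_apply, Fin.sum_univ_two, Matrix.trace_fin_two, Matrix.det_fin_two] <;> ring

theorem SPN_nmn {κ : Type} [Field κ] (N M : Matrix (Fin 2) (Fin 2) κ) :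
    N * M * N = (M * N).trace • N - N.det • M.adjugate := by
  rw [Matrix.adjugate_fin_two]
  ext i j
  fin_cases i <;> fin_cases j <;>
    simp [Matrix.mul_apply, Fin.sum_univ_two, Matrix.trace_fin_two, Matrix.det_fin_two] <;> ring

theorem SPN_pol {κ : Type} [Field κ] (X Y : Matrix (Fin 2) (Fin 2) κ) :
    X * Y + Y * X = X.trace • Y + Y.trace • X + ((X * Y).trace - X.trace * Y.trace) • (1 : Matrix (Fin 2) (Fin 2) κ) := by
  ext i j
  fin_cases i <;> fin_cases j <;>
    simp [Matrix.mul_apply, Fin.sum_univ_two, Matrix.trace_fin_two] <;> ring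

/-- three matrices span the matrices of trace zero -/
theorem SPN_span {k : Type} [Field k] (X Y Z : Matrix (Fin 2) (Fin 2) k) (hX : X.det = 0)
    (hY : Y.det = 0) (tX : X.trace = 0) (tY : Y.trace = 0) (tZ : Z.trace = 0) :
    ((X * Y).trace ^ 2) • Z = (Z * (X * Y)).trace • (X * Y - Y * X) +
      ((X * Y).trace * (Z * Y).trace) • X + ((X * Y).trace * (Z * X).trace) • Y := by
  have nX : ∀ M, X * M * X = (M * X).trace • X := fun M => by
    rw [SPN_nmn, hX, zero_smul, sub_zero]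
  have nY : ∀ M, Y * M * Y = (M * Y).trace • Y := fun M => by
    rw [SPN_nmn, hY, zero_smul, sub_zero]
  have anti : X * Y + Y * X = (X * Y).trace • (1 : Matrix (Fin 2) (Fin 2) k) := by
    rw [SPN_pol, tX, tY, zero_smul, zero_smul, mul_zero, sub_zero, zero_add, zero_add]
  have h1 : ((X * Y).trace ^ 2) • Z = (X * Y + Y * X) * Z * (X * Y + Y * X) := by
    rw [anti, smul_mul_assoc, one_mul, smul_mul_assoc, mul_smul_comm, mul_one, smul_smul, sq]
  have h2 : (X * Y + Y * X) * Z * (X * Y + Y * X) =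
      (X * (Y * Z) * X) * Y + X * (Y * Z * Y) * X + Y * (X * Z * X) * Y + (Y * (X * Z) * Y) * X := by
    noncomm_ring
  have c1 : (Y * Z * X).trace = (Z * (X * Y)).trace := by
    rw [mul_assoc, Matrix.trace_mul_comm, mul_assoc]
  have c2 : (X * Z * Y).trace = - (Z * (X * Y)).trace := by
    have h3 : (X * Z * Y).trace = (Z * (Y * X)).trace := by
      rw [mul_assoc, Matrix.trace_mul_comm, mul_assoc]
    have h4 : (Z * (X * Y)).trace + (Z * (Y * X)).trace = 0 := by
      rw [← Matrix.trace_add, ← mul_add, anti, mul_smul_comm, mul_one, Matrix.trace_smul, tZ, smul_zero]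
    rw [h3]
    linear_combination h4
  rw [h1, h2, nX (Y * Z), nY Z, nX Z, nY (X * Z), c1, c2, mul_smul_comm, smul_mul_assoc, smul_mul_assoc,
    mul_smul_comm, smul_mul_assoc, smul_mul_assoc, nX Y, nY X, smul_smul, smul_smul, Matrix.trace_mul_comm Y X, smul_sub,
    neg_smul, mul_comm (Z * Y).trace, mul_comm (Z * X).trace]
  abel

theorem SPN_irr {κ Γ : Type} [Field κ] [Group Γ] (σ : Γ →* Matrix (Fin 2) (Fin 2) κ)
    (hirr : Irred (fun g => σ g)) (N : Matrix (Fin 2) (Fin 2) κ) (hN0 : N ≠ 0)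
    (hdetN : N.det = 0) (htrN : N.trace = 0) : ∃ g : Γ, (N * (σ g * N * σ g⁻¹)).trace ≠ 0 := by
  by_contra hno
  have ht : ∀ g : Γ, (N * (σ g * N * σ g⁻¹)).trace = 0 := fun g => by
    by_contra hg
    exact hno ⟨g, hg⟩
  have hmul : ∀ g : Γ, σ g * σ g⁻¹ = 1 := fun g => by rw [← map_mul, mul_inv_cancel, map_one]
  have hall : ∀ g : Γ, N * σ g * N = 0 := by
    intro g
    have h1 := SPN_nmn N (σ g)
    rw [hdetN, zero_smul, sub_zero] at h1
    have h3 := ht g
    have h4 : N * (σ g * N * σ g⁻¹) = (N * σ g * N) * σ g⁻¹ := by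
      simp only [mul_assoc]
    rw [h4, h1, smul_mul_assoc, Matrix.trace_smul, smul_eq_mul] at h3
    have h5 : (σ g).det • σ g⁻¹ = (σ g).trace • (1 : Matrix (Fin 2) (Fin 2) κ) - σ g := by
      have h6 := SPN_ch (σ g)
      have h7 : (σ g * σ g) * σ g⁻¹ = ((σ g).trace • σ g - (σ g).det • (1 : Matrix (Fin 2) (Fin 2) κ)) * σ g⁻¹ := by
        rw [h6]
      rw [mul_assoc, hmul, mul_one, sub_mul, smul_mul_assoc, hmul, smul_mul_assoc, one_mul] at h7
      rw [eq_sub_iff_add_eq] at h7 ⊢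
      rw [add_comm]
      exact h7
    have h8 : (σ g).det * (N * σ g⁻¹).trace = - (σ g * N).trace := by
      have h9 : (N * ((σ g).det • σ g⁻¹)).trace = (N * ((σ g).trace • (1 : Matrix (Fin 2) (Fin 2) κ) - σ g)).trace := by
        rw [h5]
      rw [mul_smul_comm, Matrix.trace_smul, mul_sub, mul_smul_comm, mul_one, Matrix.trace_sub, Matrix.trace_smul, htrN,
        smul_zero, zero_sub, smul_eq_mul, Matrix.trace_mul_comm N (σ g)] at h9
      exact h9
    have h10 : (σ g * N).trace = 0 := by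
      rcases mul_eq_zero.mp h3 with h11 | h11
      · exact h11
      · rw [h11, mul_zero] at h8
        exact (neg_eq_zero.mp h8.symm)
    rw [h1, h10, zero_smul]
  let U : Submodule κ (Fin 2 → κ) :=
    { carrier := {x | ∀ g : Γ, (N * σ g) *ᵥ x = 0}
      add_mem' := by
        intro x y hx hy g
        rw [Matrix.mulVec_add, hx g, hy g, add_zero]
      zero_mem' := by
        intro g
        exact Matrix.mulVec_zero _
      smul_mem' := by
        intro a x hx g
        rw [Matrix.mulVec_smul, hx g, smul_zero] }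
  have hU : ∀ g : Γ, ∀ u ∈ U, σ g *ᵥ u ∈ U := by
    intro g u hu g'
    rw [Matrix.mulVec_mulVec, mul_assoc, ← map_mul]
    exact hu (g' * g)
  have hNne : ∃ y : Fin 2 → κ, N *ᵥ y ≠ 0 := by
    by_contra hcon
    apply hN0
    have h1 : ∀ y, N *ᵥ y = 0 := fun y => by
      by_contra hy
      exact hcon ⟨y, hy⟩
    ext i j
    have h3 := congrFun (h1 (Pi.single j 1)) i
    rw [Matrix.mulVec_single_one] at h3
    exact h3
  obtain ⟨y, hy⟩ := hNne
  rcases hirr.2 U hU with hb | htop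
  · have h1 : N *ᵥ y ∈ U := by
      intro g
      rw [Matrix.mulVec_mulVec, hall g, Matrix.zero_mulVec]
    rw [hb] at h1
    exact hy ((Submodule.mem_bot κ).mp h1)
  · have h1 : y ∈ U := by
      rw [htop]
      exact Submodule.mem_top
    have h3 := h1 1
    rw [map_one, mul_one] at h3
    exact hy h3

/-- a nilpotent 2 by 2 matrix `A - 1` with `det A = 1` -/
theorem SPN_dt {κ : Type} [Field κ] (A : Matrix (Fin 2) (Fin 2) κ) (h2 : (A - 1) ^ 2 = 0)
    (hd : A.det = 1) : (A - 1).det = 0 ∧ (A - 1).trace = 0 := by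
  have h1 : (A - 1).det = 0 := by
    have h3 : (A - 1).det ^ 2 = 0 := by
      rw [← Matrix.det_pow, h2]
      exact Matrix.det_zero
    exact pow_eq_zero_iff (two_ne_zero) |>.mp h3
  refine ⟨h1, ?_⟩
  have h4 : A.det = (A - 1).det + (A - 1).trace + 1 := by
    rw [Matrix.det_fin_two, Matrix.det_fin_two, Matrix.trace_fin_two]
    simp only [Matrix.sub_apply, Matrix.one_apply_eq]
    rw [Matrix.one_apply_ne (show (0 : Fin 2) ≠ 1 by decide), Matrix.one_apply_ne (show (1 : Fin 2) ≠ 0 by decide)]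
    ring
  rw [hd, h1] at h4
  linear_combination -h4

theorem SPN_nil {κ m : Type} [Field κ] [Fintype m] [DecidableEq m] (M : Matrix m m κ)
    (hM : IsNilpotent M) : M ^ Fintype.card m = 0 := by
  have h1 := Matrix.isNilpotent_charpoly_sub_pow_of_isNilpotent hM
  have h2 : M.charpoly = X ^ Fintype.card m := sub_eq_zero.mp h1.eq_zero
  have h3 := Matrix.aeval_self_charpoly M
  rw [h2, map_pow, aeval_X] at h3
  exact h3

theorem SPN_el (hNIL : NIL_stmt) {κ Γ m : Type} [Field κ] [Group Γ] [Fintype m] [DecidableEq m]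
    (p : ℕ) (hp : p.Prime) (hc : CharP κ p) (hm : Fintype.card m ≤ p) (W : Γ →* Matrix m m κ)
    (ρ : Γ →* Matrix (Fin 2) (Fin 2) κ) (hW : (Set.range W).Finite) (hirr : Irred fun g => ρ g)
    (g : Γ) (hg : orderOf (ρ g) = p) :
    ∃ w h : Γ, W w ^ p = 1 ∧ ρ w ^ p = 1 ∧
      ((ρ w - 1) * (ρ h * (ρ w - 1) * ρ h⁻¹)).trace ≠ 0 := by
  obtain ⟨a, b, hab, hWab⟩ := hW.exists_lt_map_eq_of_forall_mem (f := fun i : ℕ => W (g ^ i))
    (fun i => Set.mem_range_self _)
  have hn0 : b - a ≠ 0 := by omega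
  have hWn : W g ^ (b - a) = 1 := by
    rw [← map_pow]
    have h1 : g ^ (b - a) = (g ^ a)⁻¹ * g ^ b := by
      rw [eq_inv_mul_iff_mul_eq, ← pow_add]
      congr 1
      omega
    have h2 : W (g ^ a) = W (g ^ b) := hWab
    rw [h1, map_mul, ← h2, ← map_mul, inv_mul_cancel, map_one]
  obtain ⟨e, n', hn', hne⟩ := Nat.exists_eq_pow_mul_and_not_dvd hn0 p hp.ne_one
  have hρw : ρ (g ^ n') ^ p = 1 := by
    rw [← map_pow, ← pow_mul, mul_comm, pow_mul, map_pow, map_pow, ← hg, pow_orderOf_eq_one, one_pow]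
  have hρ1 : ρ (g ^ n') ≠ 1 := by
    intro h1
    apply hn'
    rw [map_pow] at h1
    rw [← hg]
    exact orderOf_dvd_of_pow_eq_one h1
  have hWe : W (g ^ n') ^ (p ^ e) = 1 := by
    rw [← map_pow, ← pow_mul, mul_comm, ← hne, map_pow, hWn]
  have hWp : W (g ^ n') ^ p = 1 := by
    rcases isEmpty_or_nonempty m with hem | hne'
    · exact Subsingleton.elim _ _
    · have := Fact.mk hp
      have h1 : (W (g ^ n') - 1) ^ (p ^ e) = 0 := by
        rw [sub_pow_char_pow_of_commute p e (Commute.one_right _), hWe, one_pow, sub_self]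
      have h2 := SPN_nil _ ⟨_, h1⟩
      have h3 : (W (g ^ n') - 1) ^ p = 0 := by
        obtain ⟨c, hc⟩ := Nat.exists_eq_add_of_le hm
        rw [hc, pow_add, h2, zero_mul]
      have h4 : (W (g ^ n') - 1) ^ p = W (g ^ n') ^ p - 1 ^ p :=
        sub_pow_char_of_commute p (Commute.one_right _)
      rw [h3, one_pow] at h4
      exact (sub_eq_zero.mp h4.symm)
  obtain ⟨hsq, hdet⟩ := hNIL.1 p 2 hp hc (by simp) (ρ (g ^ n')) hρw
  obtain ⟨hd, htr⟩ := SPN_dt _ hsq hdet
  obtain ⟨h, hh⟩ := SPN_irr ρ hirr (ρ (g ^ n') - 1) (sub_ne_zero.mpr hρ1) hd htr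
  exact ⟨g ^ n', h, hWp, hρw, hh⟩

theorem SPN_Lg {k : Type} [Field k] (A : Matrix (Fin 2) (Fin 2) k) : Lg 2 A = A - 1 := by
  unfold Lg
  rw [Finset.sum_range_succ, Finset.sum_range_one]
  simp

theorem SPN (h1 : NIL_stmt) (h2 : LCJ_stmt) : SPN_stmt := by
  intro J 𝒰 κ _ p k _ _ π hUP Γ m _ _ _ W ρ hW hirr hord Z
  have hmem2 : ∀ w ∈ pel p W ρ, (star π ρ w - 1) ^ 2 = 0 ∧ (star π ρ w).det = 1 := fun w hw =>
    h1.2 𝒰 p π hUP ρ 2 w (by simp) (fun j => (hw j).2)
  have htr0 : ∀ X ∈ LL π p W ρ, X.2.trace = 0 := by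
    intro X hX
    unfold LL at hX
    induction hX using Submodule.span_induction with
    | mem x hx =>
      obtain ⟨w, hw, rfl⟩ := hx
      show (Lg 2 (star π ρ w)).trace = 0
      rw [SPN_Lg]
      exact (SPN_dt _ (hmem2 w hw).1 (hmem2 w hw).2).2
    | zero => exact Matrix.trace_zero _ _
    | add x y _ _ hx hy =>
      show (x.2 + y.2).trace = 0
      rw [Matrix.trace_add, hx, hy, add_zero]
    | smul a x _ hx =>
      show (a • x.2).trace = 0
      rw [Matrix.trace_smul, hx, smul_zero]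
  constructor
  · rintro ⟨X, hX, rfl⟩
    exact htr0 X hX
  · intro tZ
    -- choice of the elements
    have hex : ∀ j, ∃ w h : Γ, W j w ^ p j = 1 ∧ ρ j w ^ p j = 1 ∧ (Fintype.card m ≤ p j →
        ((ρ j w - 1) * (ρ j h * (ρ j w - 1) * ρ j h⁻¹)).trace ≠ 0) := by
      intro j
      by_cases hm : Fintype.card m ≤ p j
      · obtain ⟨g, hg⟩ := hord j
        obtain ⟨w, h, e1, e2, e3⟩ := SPN_el h1 (p j) (hUP.prime j) (hUP.char j) hm (W j) (ρ j) (hW j) (hirr j) g hg
        exact ⟨w, h, e1, e2, fun _ => e3⟩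
      · exact ⟨1, 1, by rw [map_one, one_pow], by rw [map_one, one_pow], fun h => absurd h hm⟩
    choose w h e1 e2 e3 using hex
    have hw : w ∈ pel p W ρ := fun j => ⟨e1 j, e2 j⟩
    set Xk := star π ρ w - 1 with hXk
    set Yk := star π ρ h * Xk * star π ρ h⁻¹ with hYk
    have hgen : (Lg (Fintype.card m) (star π W w), Lg 2 (star π ρ w)) ∈ LL π p W ρ :=
      Submodule.subset_span ⟨w, hw, rfl⟩
    have hXS : ∃ X ∈ LL π p W ρ, X.2 = Xk := ⟨_, hgen, SPN_Lg _⟩
    have hconj : ∀ (g : J → Γ) (A : Matrix (Fin 2) (Fin 2) k), (∃ X ∈ LL π p W ρ, X.2 = A) →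
        ∃ X ∈ LL π p W ρ, X.2 = star π ρ g * A * star π ρ g⁻¹ := by
      rintro g A ⟨X, hX, rfl⟩
      exact ⟨_, h2 p π W ρ g X hX, rfl⟩
    have hYS : ∃ X ∈ LL π p W ρ, X.2 = Yk := hconj h _ hXS
    have hadd : ∀ A B : Matrix (Fin 2) (Fin 2) k, (∃ X ∈ LL π p W ρ, X.2 = A) →
        (∃ X ∈ LL π p W ρ, X.2 = B) → ∃ X ∈ LL π p W ρ, X.2 = A + B := by
      rintro A B ⟨X, hX, rfl⟩ ⟨Y, hY, rfl⟩
      exact ⟨X + Y, Submodule.add_mem _ hX hY, rfl⟩
    have hsmul : ∀ (a : k) (A : Matrix (Fin 2) (Fin 2) k), (∃ X ∈ LL π p W ρ, X.2 = A) →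
        ∃ X ∈ LL π p W ρ, X.2 = a • A := by
      rintro a A ⟨X, hX, rfl⟩
      exact ⟨a • X, Submodule.smul_mem _ a hX, rfl⟩
    obtain ⟨hX2, hXd⟩ := hmem2 w hw
    obtain ⟨dX, tX⟩ := SPN_dt _ hX2 hXd
    rw [← hXk] at hX2 dX tX
    have hmul : ∀ g : J → Γ, star π ρ g * star π ρ g⁻¹ = 1 := fun g => by
      rw [← map_mul, mul_inv_cancel, map_one]
    have hmul' : ∀ g : J → Γ, star π ρ g⁻¹ * star π ρ g = 1 := fun g => by
      rw [← map_mul, inv_mul_cancel, map_one]
    have dY : Yk.det = 0 := by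
      rw [hYk, Matrix.det_mul, Matrix.det_mul, dX, mul_zero, zero_mul]
    have tY : Yk.trace = 0 := by
      rw [hYk, Matrix.trace_mul_comm, ← mul_assoc, hmul', one_mul, tX]
    have hX1 : star π ρ w = 1 + Xk := by
      rw [hXk]
      abel
    have hXinv : star π ρ w⁻¹ = 1 - Xk := by
      have h3 : (1 - Xk) * star π ρ w = 1 := by
        have h4 : Xk * Xk = 0 := by rw [← sq, hX2]
        rw [hX1, sub_mul, mul_add, mul_add, h4]
        simp
      calc star π ρ w⁻¹ = ((1 - Xk) * star π ρ w) * star π ρ w⁻¹ := by rw [h3, one_mul]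
        _ = 1 - Xk := by rw [mul_assoc, hmul, mul_one]
    -- the trace
    have htk : (Xk * Yk).trace ≠ 0 := by
      set MM : Matrix (Fin 2) (Fin 2) (∀ j, κ j) := (mt ρ w - 1) * (mt ρ h * (mt ρ w - 1) * mt ρ h⁻¹) with hMM
      have hmap : (Xk * Yk).trace = π MM.trace := by
        have h3 : ∀ g : J → Γ, star π ρ g = π.mapMatrix (mt ρ g) := fun g => rfl
        have h4 : Xk * Yk = π.mapMatrix MM := by
          rw [hYk, hXk, hMM, map_mul, map_mul, map_mul, map_sub, map_one, ← h3, ← h3, ← h3]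
        rw [h4]
        exact (AddMonoidHom.map_trace π.toAddMonoidHom MM).symm
      rw [hmap]
      intro h0
      rw [hUP.zero] at h0
      have hcomp : ∀ j, MM.trace j = ((ρ j (w j) - 1) * (ρ j (h j) * (ρ j (w j) - 1) * ρ j (h j)⁻¹)).trace := by
        intro j
        have h5 : ∀ g : J → Γ, (Pi.evalRingHom κ j).mapMatrix (mt ρ g) = ρ j (g j) := fun g => by
          ext a b
          rfl
        have h6 : (Pi.evalRingHom κ j).mapMatrix MM = (ρ j (w j) - 1) * (ρ j (h j) * (ρ j (w j) - 1) * ρ j (h j)⁻¹) := by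
          rw [hMM, map_mul, map_mul, map_mul, map_sub, map_one, h5, h5, h5]
          rfl
        rw [← h6]
        exact AddMonoidHom.map_trace (Pi.evalRingHom κ j).toAddMonoidHom MM
      have hev : ∀ᶠ j in (𝒰 : Filter J), False := by
        filter_upwards [h0, hUP.lim (Fintype.card m)] with j hj hj2
        rw [hcomp j] at hj
        exact e3 j hj2.le hj
      exact (Filter.NeBot.ne inferInstance) (Filter.eventually_false_iff_eq_bot.mp hev)
    -- the commutator
    have hbr : ∃ X ∈ LL π p W ρ, X.2 = Xk * Yk - Yk * Xk := by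
      have h3 := hconj w Yk hYS
      rw [hX1, hXinv] at h3
      have h4 : (1 + Xk) * Yk * (1 - Xk) = Yk + (Xk * Yk - Yk * Xk) - (Yk * Xk).trace • Xk := by
        have h5 : Xk * Yk * Xk = (Yk * Xk).trace • Xk := by
          rw [SPN_nmn, dX, zero_smul, sub_zero]
        rw [← h5]
        noncomm_ring
      rw [h4] at h3
      have h6 := hadd _ _ (hadd _ _ h3 (hsmul (-1) _ hYS)) (hsmul (Yk * Xk).trace _ hXS)
      have h7 : Yk + (Xk * Yk - Yk * Xk) - (Yk * Xk).trace • Xk + (-1 : k) • Yk + (Yk * Xk).trace • Xk =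
          Xk * Yk - Yk * Xk := by
        rw [neg_one_smul]
        abel
      rw [h7] at h6
      exact h6
    have hfin := SPN_span Xk Yk Z dX dY tX tY tZ
    have h8 := hsmul ((Xk * Yk).trace ^ 2)⁻¹ _ (hadd _ _ (hadd _ _ (hsmul (Z * (Xk * Yk)).trace _ hbr)
      (hsmul ((Xk * Yk).trace * (Z * Yk).trace) _ hXS)) (hsmul ((Xk * Yk).trace * (Z * Xk).trace) _ hYS))
    rw [← hfin, smul_smul, inv_mul_cancel₀ (pow_ne_zero 2 htk), one_smul] at h8
    exact h8

end Pool.Agent.HZ
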