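import Mathlib
import Pool.Agent.helper91.HZ.Spec

/-!
# Project HZ, row TWO
-/

namespace Pool.Agent.HZ

open Matrix Pool.Agent.GO Pool.Agent.AR Pool.Agent.RG

theorem TWO_ch {κ : Type} [Field κ] (A : Matrix (Fin 2) (Fin 2) κ) :
    A * A = A.trace • A - A.det • (1 : Matrix (Fin 2) (Fin 2) κ) := by
  ext i j
  fin_cases i <;> fin_cases j <;>
    simp [Matrix.mul_apply, Fin.sum_univ_two, Matrix.trace_fin_two, Matrix.det_fin_two] <;> ring

theorem TWO_nmn {κ : Type} [Field κ] (N M : Matrix (Fin 2) (Fin 2) κ) :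
    N * M * N = (M * N).trace • N - N.det • M.adjugate := by
  rw [Matrix.adjugate_fin_two]
  ext i j
  fin_cases i <;> fin_cases j <;>
    simp [Matrix.mul_apply, Fin.sum_univ_two, Matrix.trace_fin_two, Matrix.det_fin_two] <;> ring

theorem TWO : TWO_stmt := by
  intro Γ κ _ _ _ h2 σ hirr H hH hdbl h hh
  show ∃ c : κ, σ h = c • (1 : Matrix (Fin 2) (Fin 2) κ)
  by_contra hns
  have hmul : ∀ g : Γ, σ g * σ g⁻¹ = 1 := fun g => by rw [← map_mul, mul_inv_cancel, map_one]
  have hmul' : ∀ g : Γ, σ g⁻¹ * σ g = 1 := fun g => by rw [← map_mul, inv_mul_cancel, map_one]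
  have hdet : ∀ g : Γ, (σ g).det * (σ g⁻¹).det = 1 := fun g => by
    rw [← Matrix.det_mul, hmul, Matrix.det_one]
  have hdet0 : ∀ g : Γ, (σ g).det ≠ 0 := fun g h0 => by
    have h1 := hdet g
    rw [h0, zero_mul] at h1
    exact zero_ne_one h1
  set A := σ h with hA
  obtain ⟨c, hcc⟩ : ∃ c : κ, 2 * c = A.trace := ⟨A.trace / 2, by field_simp⟩
  set N := A - c • (1 : Matrix (Fin 2) (Fin 2) κ) with hN
  have hN0 : N ≠ 0 := by
    intro h0
    apply hns
    exact ⟨c, sub_eq_zero.mp h0⟩
  have hAd := hdbl h hh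
  rw [← hA] at hAd
  have hdc : A.det = c ^ 2 := by
    have h1 : 4 * A.det = 4 * c ^ 2 := by
      rw [← hAd, ← hcc]
      ring
    have h4 : (4 : κ) ≠ 0 := by
      have : (4 : κ) = 2 * 2 := by norm_num
      rw [this]
      exact mul_ne_zero h2 h2
    exact mul_left_cancel₀ h4 h1
  have htrN : N.trace = 0 := by
    rw [hN, Matrix.trace_sub, Matrix.trace_smul, Matrix.trace_one, ← hcc, Fintype.card_fin, smul_eq_mul]
    push_cast
    ring
  have hdetN : N.det = 0 := by
    have h1 : N.det = A.det - c * A.trace + c ^ 2 := by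
      rw [hN, Matrix.det_fin_two, Matrix.det_fin_two, Matrix.trace_fin_two]
      simp [Matrix.sub_apply, Matrix.smul_apply]
      ring
    rw [h1, hdc, ← hcc]
    ring
  have hδ : A.det ≠ 0 := hdet0 h
  -- the trace of `N M N M⁻¹`
  have ht : ∀ g : Γ, (N * (σ g * N * σ g⁻¹)).trace = 0 := by
    intro g
    set B := σ g * A * σ g⁻¹ with hB
    have hBσ : σ (g * h * g⁻¹) = B := by rw [map_mul, map_mul]
    have hmem := hH.conj_mem h hh g
    have trB : B.trace = A.trace := by
      rw [hB, Matrix.trace_mul_comm, ← mul_assoc, hmul', one_mul]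
    have detB : B.det = A.det := by
      rw [hB, Matrix.det_mul, Matrix.det_mul]
      have := hdet g
      linear_combination A.det * this
    have e1 := hdbl (h * (g * h * g⁻¹)) (H.mul_mem hh hmem)
    rw [map_mul, hBσ, ← hA, Matrix.det_mul, detB] at e1
    have e2 := hdbl (h * (g * h * g⁻¹) * (g * h * g⁻¹)) (H.mul_mem (H.mul_mem hh hmem) hmem)
    rw [map_mul, map_mul, hBσ, ← hA, Matrix.det_mul, Matrix.det_mul, detB, mul_assoc A B B, TWO_ch B, mul_sub,
      Matrix.trace_sub, mul_smul_comm, mul_smul_comm, mul_one, Matrix.trace_smul, Matrix.trace_smul, trB, detB,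
      smul_eq_mul, smul_eq_mul] at e2
    set s := (A * B).trace with hs
    have e3 : (s - 2 * A.det) * (s + 2 * A.det) = 0 := by linear_combination e1
    have e4 : 4 * A.det * ((s - A.det) ^ 2 - A.det ^ 2) = 0 := by
      linear_combination e2 - (s - A.det) ^ 2 * hAd
    have h4 : (4 : κ) ≠ 0 := by
      have : (4 : κ) = 2 * 2 := by norm_num
      rw [this]
      exact mul_ne_zero h2 h2
    have e5 : (s - A.det) ^ 2 - A.det ^ 2 = 0 := (mul_eq_zero.mp e4).resolve_left (mul_ne_zero h4 hδ)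
    have e6 : s - 2 * A.det = 0 := by
      rcases mul_eq_zero.mp e3 with h3 | h3
      · exact h3
      · exfalso
        have h5 : s = -(2 * A.det) := by linear_combination h3
        rw [h5] at e5
        have h6 : 4 * 2 * A.det ^ 2 = 0 := by linear_combination e5
        exact mul_ne_zero (mul_ne_zero h4 h2) (pow_ne_zero 2 hδ) h6
    have hN' : σ g * N * σ g⁻¹ = B - c • (1 : Matrix (Fin 2) (Fin 2) κ) := by
      rw [hN, mul_sub, sub_mul, mul_smul_comm, mul_one, smul_mul_assoc, hmul]
    rw [hN', hN, sub_mul, mul_sub, smul_mul_assoc, one_mul, mul_smul_comm, mul_one, Matrix.trace_sub, Matrix.trace_sub,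
      Matrix.trace_smul, Matrix.trace_smul, Matrix.trace_sub, Matrix.trace_smul, Matrix.trace_one, Fintype.card_fin,
      trB, ← hs, smul_eq_mul, smul_eq_mul, smul_eq_mul]
    push_cast
    rw [hdc] at e6
    linear_combination e6 + 2 * c * hcc
  have hall : ∀ g : Γ, N * σ g * N = 0 := by
    intro g
    have h1 := TWO_nmn N (σ g)
    rw [hdetN, zero_smul, sub_zero] at h1
    have h3 := ht g
    have h4 : N * (σ g * N * σ g⁻¹) = (N * σ g * N) * σ g⁻¹ := by
      simp only [mul_assoc]
    rw [h4, h1, smul_mul_assoc, Matrix.trace_smul, smul_eq_mul] at h3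
    have h5 : (σ g).det • σ g⁻¹ = (σ g).trace • (1 : Matrix (Fin 2) (Fin 2) κ) - σ g := by
      have h6 := TWO_ch (σ g)
      have h7 : (σ g * σ g) * σ g⁻¹ = ((σ g).trace • σ g - (σ g).det • (1 : Matrix (Fin 2) (Fin 2) κ)) * σ g⁻¹ := by
        rw [h6]
      rw [mul_assoc, hmul, mul_one, sub_mul, smul_mul_assoc, hmul, smul_mul_assoc, one_mul] at h7
      rw [eq_sub_iff_add_eq] at h7 ⊢
      rw [add_comm]
      exact h7
    have h8 : (σ g).det * (N * σ g⁻¹).trace = - (σ g * N).trace := by
      have h9 : (N * ((σ g).det • σ g⁻¹)).trace = (N * ((σ g).trace • (1 : Matrix (Fin 2) (Fin 2) κ) - σ g)).trace := by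
        rw [h5]
      rw [mul_smul_comm, Matrix.trace_smul, mul_sub, mul_smul_comm, mul_one, Matrix.trace_sub, Matrix.trace_smul, htrN,
        smul_zero, zero_sub, smul_eq_mul, Matrix.trace_mul_comm N (σ g)] at h9
      exact h9
    have h10 : (σ g * N).trace = 0 := by
      rcases mul_eq_zero.mp h3 with h11 | h11
      · exact h11
      · rw [h11, mul_zero] at h8
        exact (neg_eq_zero.mp h8.symm)
    rw [h1, h10, zero_smul]
  let U : Submodule κ (Fin 2 → κ) :=
    { carrier := {x | ∀ g : Γ, (N * σ g) *ᵥ x = 0}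
      add_mem' := by
        intro x y hx hy g
        rw [Matrix.mulVec_add, hx g, hy g, add_zero]
      zero_mem' := by
        intro g
        exact Matrix.mulVec_zero _
      smul_mem' := by
        intro a x hx g
        rw [Matrix.mulVec_smul, hx g, smul_zero] }
  have hU : ∀ g : Γ, ∀ u ∈ U, σ g *ᵥ u ∈ U := by
    intro g u hu g'
    rw [Matrix.mulVec_mulVec, mul_assoc, ← map_mul]
    exact hu (g' * g)
  have hNne : ∃ y : Fin 2 → κ, N *ᵥ y ≠ 0 := by
    by_contra hcon
    apply hN0
    have h1 : ∀ y, N *ᵥ y = 0 := fun y => by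
      by_contra hy
      exact hcon ⟨y, hy⟩
    ext i j
    have h3 := congrFun (h1 (Pi.single j 1)) i
    rw [Matrix.mulVec_single_one] at h3
    exact h3
  obtain ⟨y, hy⟩ := hNne
  rcases hirr.2 U hU with hb | htop
  · have h1 : N *ᵥ y ∈ U := by
      intro g
      rw [Matrix.mulVec_mulVec, hall g, Matrix.zero_mulVec]
    rw [hb] at h1
    exact hy ((Submodule.mem_bot κ).mp h1)
  · have h1 : y ∈ U := by
      rw [htop]
      exact Submodule.mem_top
    have h3 := h1 1
    rw [map_one, mul_one] at h3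
    exact hy h3

end Pool.Agent.HZ
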